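import Pool.Agent.Helper37.Arb.Main

/-!
Log-concavity of the Alexander polynomials of alternating arborescent links built from small
tangles (among them all two-bridge links and all alternating Montesinos links).
-/

namespace Pool.Agent.Results.MP_2b0227_gt.Arborescent

open Pool.Agent.Helper36.SC Pool.Agent.Helper37.Arb

/-- The diagram of a tangle, closed by joining its two left ends and its two right ends, with
two marked crossings from which the closing edges start: for a tangle of type `true` the left edge
leaves `l` on the underpass and the right edge leaves `r` on the overpass, for a tangle of type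
`false` the edges leave `l` and `r` on the underpass. -/
noncomputable def diagram {s : Bool} (t : Tangle s) : Marked :=
  Tangle.rec (motive := fun _ _ => Marked)
    -- cross
    { V := Unit
      D := ⟨fun _ => true, Equiv.refl _, Equiv.refl _⟩
      l := ()
      r := () }
    -- stack
    (fun _ _ S T =>
      { V := S.V ⊕ T.V
        D := swapOver (swapUnder (union S.D T.D) (.inl S.l) (.inr T.l)) (.inl S.r) (.inr T.r)
        l := .inr T.l
        r := .inr T.r })
    -- beside
    (fun _ _ P T =>
      { V := P.V ⊕ T.V
        D := swapUnder (union P.D T.D) (.inl P.r) (.inr T.l)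
        l := .inl P.l
        r := .inr T.r })
    -- flip
    (fun _ T =>
      { V := T.V
        D := ⟨T.D.pos, T.D.underNext, T.D.overNext⟩
        l := T.r
        r := T.l })
    -- opposite
    (fun _ _ S T =>
      { V := S.V ⊕ T.V
        D := swapOver (union S.D T.D) (.inl S.r) (.inr T.r)
        l := .inl S.l
        r := .inr T.l })
    -- sum
    (fun _ _ P Q =>
      { V := P.V ⊕ Q.V
        D := swapUnder (union P.D Q.D) (.inl P.r) (.inr Q.l)
        l := .inl P.l
        r := .inr Q.r })
    -- turn
    (fun _ P =>
      { V := P.V
        D := ⟨fun v => !P.D.pos v, P.D.overNext, (Equiv.swap P.l P.r).trans P.D.underNext⟩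
        l := P.l
        r := P.r })
    t

theorem diagram_eq {s : Bool} (t : Tangle s) : diagram t = t.diag := by
  induction t with
  | cross => rfl
  | stack S T hS hT =>
    rw [Tangle.diag, ← hS, ← hT]; rfl
  | beside P T hP hT =>
    rw [Tangle.diag, ← hP, ← hT]; rfl
  | flip T hT =>
    rw [Tangle.diag, ← hT]; rfl
  | opposite S T hS hT =>
    rw [Tangle.diag, ← hS, ← hT]; rfl
  | sum P Q hP hQ =>
    rw [Tangle.diag, ← hP, ← hQ]; rfl
  | turn P hP =>
    rw [Tangle.diag, ← hP]; rfl

/-- A connected oriented alternating link diagram on the sphere. -/
structure LinkDiagram (V : Type) where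
  /-- the diagram -/
  D : AltDiagram V
  /-- it is connected -/
  connected : D.Connected
  /-- it has `|V| + 2` regions -/
  planar : D.Planar

theorem connected_planar {s : Bool} (t : Tangle s) :
    (diagram t).D.Connected ∧ (diagram t).D.Planar := by
  rw [diagram_eq]; exact diag_planar t

/-- the link diagram of a tangle -/
noncomputable def link {s : Bool} (t : Tangle s) : LinkDiagram (diagram t).V :=
  ⟨(diagram t).D, (connected_planar t).1, (connected_planar t).2⟩

/-- Small tangles: in every `opposite S T` one of the two tangles is a single crossing. -/
inductive Small : ∀ {s : Bool}, Tangle s → Prop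
  | cross : Small .cross
  | stack {S T : Tangle true} : Small S → Small T → Small (.stack S T)
  | beside {P : Tangle false} {T : Tangle true} : Small P → Small T → Small (.beside P T)
  | flip {T : Tangle true} : Small T → Small (.flip T)
  | opposite_cross {T : Tangle true} : Small T → Small (.opposite T .cross)
  | cross_opposite {T : Tangle true} : Small T → Small (.opposite .cross T)
  | sum {P Q : Tangle false} : Small P → Small Q → Small (.sum P Q)
  | turn {P : Tangle false} : Small P → Small (.turn P)

/-- Good tangles: built from small tangles by all operations but `stack`. -/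
inductive Good : ∀ {s : Bool}, Tangle s → Prop
  | small {s : Bool} {t : Tangle s} : Small t → Good t
  | beside {P : Tangle false} {T : Tangle true} : Good P → Good T → Good (.beside P T)
  | flip {T : Tangle true} : Good T → Good (.flip T)
  | opposite {S T : Tangle true} : Good S → Good T → Good (.opposite S T)
  | sum {P Q : Tangle false} : Good P → Good Q → Good (.sum P Q)
  | turn {P : Tangle false} : Good P → Good (.turn P)

theorem small_small {s : Bool} {t : Tangle s} (h : Small t) : t.Small := by
  induction h with
  | cross => trivial
  | stack _ _ hS hT => exact ⟨hS, hT⟩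
  | beside _ _ hP hT => exact ⟨hP, hT⟩
  | flip _ hT => exact hT
  | opposite_cross _ hT => exact ⟨hT, trivial, Or.inr rfl⟩
  | cross_opposite _ hT => exact ⟨trivial, hT, Or.inl rfl⟩
  | sum _ _ hP hQ => exact ⟨hP, hQ⟩
  | turn _ hP => exact hP

theorem small_good {s : Bool} {t : Tangle s} (h : t.Small) : t.Good := by
  induction t with
  | cross => trivial
  | stack S T _ _ => exact h
  | beside P T hP hT => exact ⟨hP h.1, hT h.2⟩
  | flip T hT => exact hT h
  | opposite S T hS hT => exact ⟨hS h.1, hT h.2.1⟩
  | sum P Q hP hQ => exact ⟨hP h.1, hQ h.2⟩
  | turn P hP => exact hP h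

theorem good_good {s : Bool} {t : Tangle s} (h : Good t) : t.Good := by
  induction h with
  | small h => exact small_good (small_small h)
  | beside _ _ hP hT => exact ⟨hP, hT⟩
  | flip _ hT => exact hT
  | opposite _ _ hS hT => exact ⟨hS, hT⟩
  | sum _ _ hP hQ => exact ⟨hP, hQ⟩
  | turn _ hP => exact hP

/-- The coefficients of the Alexander polynomial of the link of a good tangle alternate in sign
without gaps, and their absolute values are log-concave. -/
theorem result {s : Bool} (t : Tangle s) (h : Good t) (u : (diagram t).V) :
    (∀ k, 0 ≤ (-1) ^ k * ((link t).D.alexander u).coeff k) ∧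
    (∀ k, ((link t).D.alexander u).coeff k * ((link t).D.alexander u).coeff (k + 2) ≤
      ((link t).D.alexander u).coeff (k + 1) ^ 2) ∧
    (∀ i j k, i < j → j < k → ((link t).D.alexander u).coeff i ≠ 0 →
      ((link t).D.alexander u).coeff k ≠ 0 → ((link t).D.alexander u).coeff j ≠ 0) ∧
    (link t).D.alexander u ≠ 0 := by
  have key := main t (good_good h)
  rw [← diagram_eq] at key
  exact key u

end Pool.Agent.Results.MP_2b0227_gt.Arborescent
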