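import Pool.Agent.Helper36.SC.Main
import Pool.Agent.Helper36.SC.Classes

/-!
Zeros of Alexander polynomials of alternating links in a sector, and log-concavity.
Draw at every crossing of an oriented alternating diagram an arrow from the region behind it
to the region in front of it. If these arrows can be arranged in closed trails of length at
most `m`, then all non-zero zeros `x` of the Alexander polynomial satisfy
`|arg x| ≤ π - 2 π / m`; for `m = 3` the coefficients are log-concave.
-/

namespace Pool.Agent.Results.MP_2b0227_gt.SectorZeros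

open Polynomial Pool.Agent.Helper36.SC

/-- Let `D` be a connected oriented alternating link diagram on the sphere and `ψ` a permutation
of its crossings such that the region in front of each crossing `v` is the region behind `ψ v`,
with all cycles of length at most `m`. Then all non-zero zeros of the Alexander polynomial have
argument at most `π - 2 π / m` in absolute value; if `m ≤ 3`, then the coefficients
alternate in sign, are log-concave, and have no gaps. -/
theorem result {V : Type} [Fintype V] [DecidableEq V] (D : AltDiagram V) (hc : D.Connected)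
    (hp : D.Planar) (ψ : Equiv.Perm V)
    (hψ : ∀ v, D.region (v, Corner.front) = D.region (ψ v, Corner.back))
    (m : ℕ) (hm : 2 ≤ m) (hk : ∀ v, ∃ k, 0 < k ∧ k ≤ m ∧ (ψ ^ k) v = v) (u : V) :
    (∀ x : ℂ, x ≠ 0 → aeval x (D.alexander u) = 0 → |x.arg| ≤ Real.pi - 2 * Real.pi / m) ∧
    (m ≤ 3 →
      (∃ s : ℤ, (s = 1 ∨ s = -1) ∧ ∀ k, 0 ≤ s * (-1) ^ k * (D.alexander u).coeff k) ∧
      (∀ k, (D.alexander u).coeff k * (D.alexander u).coeff (k + 2) ≤
        (D.alexander u).coeff (k + 1) ^ 2) ∧
      (∀ i j k, i < j → j < k → (D.alexander u).coeff i ≠ 0 → (D.alexander u).coeff k ≠ 0 →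
        (D.alexander u).coeff j ≠ 0)) := by
  have h1 : ∀ x : ℂ, x ≠ 0 → aeval x (D.alexander u) = 0 →
      |x.arg| ≤ Real.pi - 2 * Real.pi / m := by
    intro x hx0 hx
    have h := AltDiagram.sector hc hp ψ hψ m hm hk u x hx0 hx
    have e : 2 * (Real.pi / m) = 2 * Real.pi / m := by ring
    rwa [e] at h
  refine ⟨h1, fun hm3 => lc_of_sector _ fun x hx0 hx => (h1 x hx0 hx).trans ?_⟩
  have h2 : (m : ℝ) ≤ 3 := by exact_mod_cast hm3
  have h3 : (0 : ℝ) < m := by positivity
  have h4 : 2 * Real.pi / 3 ≤ 2 * Real.pi / m := by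
    apply div_le_div_of_nonneg_left (by positivity) h3 h2
  linarith

/-- The special case in which the trails run around Seifert circles: for every atom of the
diagram (a class of crossings generated by: same sign and on the same Seifert circle) one of the
two classes of Seifert circles is chosen (`χ`), and the circles of this class have at most `m`
crossings in the atom. -/
theorem ofClasses {V : Type} [Fintype V] [DecidableEq V] (D : AltDiagram V) (hc : D.Connected)
    (hp : D.Planar) (χ : V → Bool)
    (hχ : ∀ v w, D.pos v = D.pos w →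
      D.overNext.SameCycle v w ∨ D.underNext.SameCycle v w → χ v = χ w)
    (m : ℕ) (hm : 2 ≤ m)
    (hk : ∀ v, {w | D.pos w = D.pos v ∧ (D.seifert (χ v)).SameCycle v w}.ncard ≤ m) (u : V) :
    (∀ x : ℂ, x ≠ 0 → aeval x (D.alexander u) = 0 → |x.arg| ≤ Real.pi - 2 * Real.pi / m) ∧
    (m ≤ 3 →
      (∃ s : ℤ, (s = 1 ∨ s = -1) ∧ ∀ k, 0 ≤ s * (-1) ^ k * (D.alexander u).coeff k) ∧
      (∀ k, (D.alexander u).coeff k * (D.alexander u).coeff (k + 2) ≤
        (D.alexander u).coeff (k + 1) ^ 2) ∧
      (∀ i j k, i < j → j < k → (D.alexander u).coeff i ≠ 0 → (D.alexander u).coeff k ≠ 0 →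
        (D.alexander u).coeff j ≠ 0)) := by
  obtain ⟨ψ, hψ, hψm⟩ := AltDiagram.exists_return χ hχ m hk
  exact result D hc hp ψ hψ m hm hψm u

end Pool.Agent.Results.MP_2b0227_gt.SectorZeros
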