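import Pool.Agent.Helper52.PG.All
import Pool.Agent.Helper52.PG.Iso
import Pool.Agent.Helper89.PG.REVHH
import Pool.Agent.Helper99.PG.Main

/-!
Log-concavity of the Alexander polynomials of alternating links: special alternating diagrams
(of arbitrary shape) whose crossings are replaced by tangles, iterated, together with all
operations on arborescent tangles, of which only `turn` is restricted.
-/

namespace Pool.Agent.Results.MP_2b0227_gt.SpecialTangles

open Pool.Agent.Helper36.SC Pool.Agent.Helper37.Arb Pool.Agent.Helper99.PG
open Pool.Agent.Helper52.PG (Tm)

/-- The diagram of a tangle, closed by joining its two left ends and its two right ends, with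
two marked crossings from which the closing edges start: for a tangle of type `true` the left edge
leaves `l` on the underpass and the right edge leaves `r` on the overpass, for a tangle of type
`false` the edges leave `l` and `r` on the underpass. -/
noncomputable def diagram {s : Bool} (t : Tm s) : Marked :=
  Tm.rec (motive := fun _ _ => Marked)
    -- cross
    { V := Unit
      D := ⟨fun _ => true, Equiv.refl _, Equiv.refl _⟩
      l := ()
      r := () }
    -- stack
    (fun _ _ S T =>
      { V := S.V ⊕ T.V
        D := swapOver (swapUnder (union S.D T.D) (.inl S.l) (.inr T.l)) (.inl S.r) (.inr T.r)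
        l := .inr T.l
        r := .inr T.r })
    -- beside
    (fun _ _ P T =>
      { V := P.V ⊕ T.V
        D := swapUnder (union P.D T.D) (.inl P.r) (.inr T.l)
        l := .inl P.l
        r := .inr T.r })
    -- flip
    (fun _ T =>
      { V := T.V
        D := ⟨T.D.pos, T.D.underNext, T.D.overNext⟩
        l := T.r
        r := T.l })
    -- special
    (fun _ S _ T =>
      { V := Σ v, (T v).V
        D :=
          { pos := fun x => (T x.1).D.pos x.2
            overNext := (moveSigma (Equiv.removeNone S.D.overNext) fun v => (T v).r).trans
              (Equiv.sigmaCongrRight fun v => (T v).D.overNext)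
            underNext := (moveSigma (Equiv.removeNone S.D.underNext) fun v => (T v).l).trans
              (Equiv.sigmaCongrRight fun v => (T v).D.underNext) }
        l := ⟨S.l, (T S.l).l⟩
        r := ⟨S.r, (T S.r).r⟩ })
    -- opposite
    (fun _ _ S T =>
      { V := S.V ⊕ T.V
        D := swapOver (union S.D T.D) (.inl S.r) (.inr T.r)
        l := .inl S.l
        r := .inr T.l })
    -- sum
    (fun _ _ P Q =>
      { V := P.V ⊕ Q.V
        D := swapUnder (union P.D Q.D) (.inl P.r) (.inr Q.l)
        l := .inl P.l
        r := .inr Q.r })
    -- turn
    (fun _ P =>
      { V := P.V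
        D := ⟨fun v => !P.D.pos v, P.D.overNext, (Equiv.swap P.l P.r).trans P.D.underNext⟩
        l := P.l
        r := P.r })
    t

theorem diagram_eq {s : Bool} (t : Tm s) : diagram t = t.diag := rfl

/-- A connected oriented alternating link diagram on the sphere. -/
structure LinkDiagram (V : Type) where
  /-- the diagram -/
  D : AltDiagram V
  /-- it is connected -/
  connected : D.Connected
  /-- it has `|V| + 2` regions -/
  planar : D.Planar

theorem connected_planar {s : Bool} (t : Tm s) :
    (diagram t).D.Connected ∧ (diagram t).D.Planar :=
  Pool.Agent.Helper52.PG.planarAll t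

/-- the link diagram of a tangle -/
noncomputable def link {s : Bool} (t : Tm s) : LinkDiagram (diagram t).V :=
  ⟨(diagram t).D, (connected_planar t).1, (connected_planar t).2⟩

/-- One of the summands of the tangle `P` is of the form `opposite S T`. -/
inductive HasOpposite : Tm false → Prop
  | opposite (S T : Tm true) : HasOpposite (.opposite S T)
  | sum_left {P : Tm false} (Q : Tm false) : HasOpposite P → HasOpposite (.sum P Q)
  | sum_right (P : Tm false) {Q : Tm false} : HasOpposite Q → HasOpposite (.sum P Q)

/-- All summands of the tangle `P` are turned tangles `turn Q` where `Q` has a summand of the form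
`opposite S T`. -/
inductive AllTurned : Tm false → Prop
  | turn {Q : Tm false} : HasOpposite Q → AllTurned (.turn Q)
  | sum {P Q : Tm false} : AllTurned P → AllTurned Q → AllTurned (.sum P Q)

/-- The class: all operations are allowed, but a tangle that is turned must have a summand of the
form `opposite S T`, or all its summands must be turned tangles as in `AllTurned`. -/
inductive Good : ∀ {s : Bool}, Tm s → Prop
  | cross : Good .cross
  | stack {S T : Tm true} : Good S → Good T → Good (.stack S T)
  | beside {P : Tm false} {T : Tm true} : Good P → Good T → Good (.beside P T)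
  | flip {T : Tm true} : Good T → Good (.flip T)
  | special {n : ℕ} {S : Skel (Fin n)} {T : Fin n → Tm true} : (∀ v, Good (T v)) →
      Good (.special n S T)
  | opposite {S T : Tm true} : Good S → Good T → Good (.opposite S T)
  | sum {P Q : Tm false} : Good P → Good Q → Good (.sum P Q)
  | turn {P : Tm false} : Good P → (HasOpposite P ∨ AllTurned P) → Good (.turn P)

theorem hasOpp {P : Tm false} (h : HasOpposite P) : Pool.Agent.Helper52.PG.HasOpp P := by
  induction h with
  | opposite S T => exact .opposite S T
  | sum_left Q _ h => exact .sumLeft Q h
  | sum_right P _ h => exact .sumRight P h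

theorem turned {P : Tm false} (h : AllTurned P) : Pool.Agent.Helper52.PG.Turned P := by
  induction h with
  | turn h => exact .turn (hasOpp h)
  | sum _ _ h h' => exact .sum h h'

theorem fine {s : Bool} {t : Tm s} (h : Good t) : Pool.Agent.Helper52.PG.Fine t := by
  induction h with
  | cross => exact .cross
  | stack _ _ hS hT => exact .stack hS hT
  | beside _ _ hP hT => exact .beside hP hT
  | flip _ hT => exact .flip hT
  | special _ hT => exact .special hT
  | opposite _ _ hS hT => exact .opposite hS hT
  | sum _ _ hP hQ => exact .sum hP hQ
  | turn _ ho hP => exact .turn hP (ho.imp hasOpp turned)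

/-- Every special alternating diagram with `n + 1` crossings, one of them not nugatory, is the
diagram of a good term: all its crossings are replaced by `cross`. -/
theorem contains_special {n : ℕ} (S : Skel (Fin n)) :
    Good (.stack (.special n S fun _ => .cross) .cross) ∧
    ∃ e : (diagram (.stack (.special n S fun _ => .cross) .cross)).V ≃ Option (Fin n), ∀ x,
      S.D.pos (e x) = (diagram (.stack (.special n S fun _ => .cross) .cross)).D.pos x ∧
      S.D.overNext (e x) =
        e ((diagram (.stack (.special n S fun _ => .cross) .cross)).D.overNext x) ∧
      S.D.underNext (e x) =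
        e ((diagram (.stack (.special n S fun _ => .cross) .cross)).D.underNext x) :=
  ⟨.stack (.special fun _ => .cross) .cross, Pool.Agent.Helper52.PG.nm, fun x =>
    ⟨Pool.Agent.Helper52.PG.nm_pos S x, Pool.Agent.Helper52.PG.nm_over S x,
      Pool.Agent.Helper52.PG.nm_under S x⟩⟩

/-- The coefficients of the Alexander polynomial of the link of a good term alternate in sign
without gaps, and their absolute values are log-concave. -/
theorem result {s : Bool} (t : Tm s) (h : Good t) (u : (diagram t).V) :
    (∀ k, 0 ≤ (-1) ^ k * ((link t).D.alexander u).coeff k) ∧
    (∀ k, ((link t).D.alexander u).coeff k * ((link t).D.alexander u).coeff (k + 2) ≤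
      ((link t).D.alexander u).coeff (k + 1) ^ 2) ∧
    (∀ i j k, i < j → j < k → ((link t).D.alexander u).coeff i ≠ 0 →
      ((link t).D.alexander u).coeff k ≠ 0 → ((link t).D.alexander u).coeff j ≠ 0) ∧
    (link t).D.alexander u ≠ 0 :=
  Pool.Agent.Helper52.PG.finalAll Pool.Agent.Helper89.PG.revHH
    Pool.Agent.Helper99.PG.fillMain t (fine h) u

end Pool.Agent.Results.MP_2b0227_gt.SpecialTangles
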