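import Pool.Agent.Helper47.Alt.Main

/-!
Log-concavity of the Alexander polynomials of plumbings of twisted annuli along a tree
(in particular of all two-bridge links).
-/

namespace Pool.Agent.Results.MP_2b0227_gt.TreePlumbing

open Polynomial

/-- Seifert matrix of the plumbing of `n` unknotted annuli, the annulus `i` having `b i` full
twists, along the rooted tree on `0, ..., n-1` with root `0` in which `p i` is the parent
of `i > 0`. -/
def seifertMatrix (n : ℕ) (p : ℕ → ℕ) (b : ℕ → ℤ) : Matrix (Fin n) (Fin n) ℤ :=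
  Matrix.of fun i j =>
    if (i : ℕ) = j then b i else if 0 < (i : ℕ) ∧ p i = j then 1 else 0

/-- the Alexander polynomial `det (V - t Vᵀ)` of a link with Seifert matrix `V` -/
noncomputable def alexander {n : ℕ} (V : Matrix (Fin n) (Fin n) ℤ) : ℤ[X] :=
  (Matrix.of fun i j => C (V i j) - X * C (V j i)).det

open Pool.Agent.Helper47.Alt in
theorem comp_eq (n : ℕ) (p : ℕ → ℕ) (b : ℕ → ℤ) (hp : ∀ i, 0 < i → i < n → p i < i) :
    (alexander (seifertMatrix n p b)).comp (-X) =
      (NM p X n (fun i => C (b i) * (1 + X)) (fun _ => 1)).det := by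
  have h1 : (alexander (seifertMatrix n p b)).comp (-X) =
      compRingHom (-X) (alexander (seifertMatrix n p b)) := rfl
  rw [h1, alexander, RingHom.map_det]
  congr 1
  ext1 i j
  simp only [RingHom.mapMatrix_apply, Matrix.map_apply, Matrix.of_apply, seifertMatrix, NM,
    coe_compRingHom_apply, sub_comp, C_comp, mul_comp, X_comp]
  by_cases hij : (i : ℕ) = j
  · have hb : b (j : ℕ) = b i := by rw [hij]
    have hji : (j : ℕ) = i := hij.symm
    simp only [if_pos hij, if_pos hji, hb]
    ring
  · have hji : ¬ (j : ℕ) = i := fun h => hij h.symm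
    simp only [if_neg hij, if_neg hji]
    by_cases h1 : 0 < (i : ℕ) ∧ p i = j
    · have h2 : ¬ (0 < (j : ℕ) ∧ p j = i) := by
        rintro ⟨h3, h4⟩
        have h5 := hp i h1.1 i.2
        have h6 := hp j h3 j.2
        omega
      simp only [if_pos h1, if_neg h2]
      simp
    · simp only [if_neg h1]
      split_ifs <;> simp

theorem coeff_comp_neg (P : ℤ[X]) (k : ℕ) : (P.comp (-X)).coeff k = (-1) ^ k * P.coeff k := by
  induction P using Polynomial.induction_on' with
  | add P Q hP hQ => rw [add_comp, coeff_add, coeff_add, hP, hQ]; ring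
  | monomial m a =>
    rw [monomial_comp, neg_pow, ← mul_assoc]
    have e : (-1 : ℤ[X]) ^ m = C ((-1) ^ m) := by simp
    rw [e, ← C_mul, coeff_C_mul, coeff_X_pow, coeff_monomial]
    split_ifs with h1 h2 h2
    · subst h1; ring
    · exact absurd h1.symm h2
    · exact absurd h2.symm h1
    · simp

/-- Let `T` be a rooted tree with non-zero integer weights in which every vertex `v` has at most
`|b v|` children of the same sign as `v`. Then the coefficients of the Alexander polynomial of the
corresponding plumbing of twisted annuli alternate in sign without gaps and are log-concave. -/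
theorem result (n : ℕ) (hn : 0 < n) (p : ℕ → ℕ) (b : ℕ → ℤ)
    (hp : ∀ i, 0 < i → i < n → p i < i)
    (hb : ∀ i, i < n → b i ≠ 0)
    (hs : ∀ v, v < n →
      ((Finset.Ico 1 n).filter fun c => p c = v ∧ 0 < b c * b v).card ≤ (b v).natAbs) :
    (∃ s : ℤ, ∀ k ≤ n, 0 < s * (-1) ^ k * (alexander (seifertMatrix n p b)).coeff k) ∧
    ∀ k, (alexander (seifertMatrix n p b)).coeff k *
        (alexander (seifertMatrix n p b)).coeff (k + 2) ≤
      (alexander (seifertMatrix n p b)).coeff (k + 1) ^ 2 := by
  obtain ⟨s, F, G, hs1, hD, hdet⟩ := Pool.Agent.Helper47.Alt.det_form hn hp hb hs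
  rw [← comp_eq n p b hp] at hdet
  have hc : ∀ k, (alexander (seifertMatrix n p b)).coeff k = s * (-1) ^ k * F.coeff k := by
    intro k
    have h1 := congrArg (fun P : ℤ[X] => P.coeff k) hdet
    simp only [coeff_comp_neg, coeff_C_mul] at h1
    have h2 : ((-1 : ℤ) ^ k) * (-1) ^ k = 1 := by rw [← mul_pow]; simp
    calc (alexander (seifertMatrix n p b)).coeff k
        = ((-1 : ℤ) ^ k * (-1) ^ k) * (alexander (seifertMatrix n p b)).coeff k := by
          rw [h2, one_mul]
      _ = (-1) ^ k * ((-1) ^ k * (alexander (seifertMatrix n p b)).coeff k) := by ring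
      _ = (-1) ^ k * (s * F.coeff k) := by rw [h1]
      _ = s * (-1) ^ k * F.coeff k := by ring
  have hss : s * s = 1 := by rcases hs1 with h | h <;> rw [h] <;> norm_num
  constructor
  · refine ⟨s, fun k hk => ?_⟩
    rw [hc]
    have h2 : ((-1 : ℤ) ^ k) * (-1) ^ k = 1 := by rw [← mul_pow]; simp
    have h3 : s * (-1) ^ k * (s * (-1) ^ k * F.coeff k) = (s * s) * ((-1) ^ k * (-1) ^ k) *
      F.coeff k := by ring
    rw [h3, hss, h2, one_mul, one_mul]
    exact hD.Fpos.1 k (by omega)
  · intro k
    rw [hc, hc, hc]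
    have h2 : ((-1 : ℤ) ^ k) * (-1) ^ k = 1 := by rw [← mul_pow]; simp
    have h4 := hD.lc k
    have h5 : s * (-1) ^ k * F.coeff k * (s * (-1) ^ (k + 2) * F.coeff (k + 2)) =
        (s * s) * ((-1) ^ k * (-1) ^ k) * (F.coeff k * F.coeff (k + 2)) := by ring
    have h6 : (s * (-1) ^ (k + 1) * F.coeff (k + 1)) ^ 2 =
        (s * s) * ((-1) ^ k * (-1) ^ k) * F.coeff (k + 1) ^ 2 := by ring
    rw [h5, h6, hss, h2]
    linarith

end Pool.Agent.Results.MP_2b0227_gt.TreePlumbing
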